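import Pool.Agent.Helper93.ML.FinalDefs

/-!
# Module M10b for MP_021201_al: every asymptotic cone exists, is connected and has a cut-point
-/

open Filter Topology

namespace Pool.Agent.Helper57.ML

open Pool.Agent.Helper93.ML

section Basic

variable {G : Type} [Group G] (M : Mark G)

theorem ev_append (v w : List Ltr) : M.ev (v ++ w) = M.ev v * M.ev w := by
  simp [Mark.ev]

theorem ev_invw (w : List Ltr) : M.ev (invw w) = (M.ev w)⁻¹ := by
  induction w with
  | nil => simp [invw, Mark.ev]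
  | cons a w ih =>
    have : invw (a :: w) = invw w ++ [inv1 a] := by simp [invw]
    rw [this, ev_append, ih]
    simp [Mark.ev, M.s_inv]

theorem length_invw (w : List Ltr) : (invw w).length = w.length := by simp [invw]

theorem exists_ev (g : G) : ∃ w, M.ev w = g := by
  have hg : g ∈ Subgroup.closure (Set.range M.s) := by rw [M.gen]; trivial
  induction hg using Subgroup.closure_induction with
  | mem x hx => obtain ⟨y, rfl⟩ := hx; exact ⟨[y], by simp [Mark.ev]⟩
  | one => exact ⟨[], by simp [Mark.ev]⟩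
  | mul x y _ _ hx hy =>
    obtain ⟨v, rfl⟩ := hx
    obtain ⟨w, rfl⟩ := hy
    exact ⟨v ++ w, ev_append M v w⟩
  | inv x _ hx =>
    obtain ⟨v, rfl⟩ := hx
    exact ⟨invw v, ev_invw M v⟩

theorem exists_geod (g : G) : ∃ w, M.ev w = g ∧ w.length = M.len g := by
  have : (sInf {n | ∃ w, M.ev w = g ∧ w.length = n}) ∈ {n | ∃ w, M.ev w = g ∧ w.length = n} :=
    Nat.sInf_mem (by obtain ⟨w, hw⟩ := exists_ev M g; exact ⟨_, w, hw, rfl⟩)
  exact this

theorem len_le (w : List Ltr) : M.len (M.ev w) ≤ w.length := Nat.sInf_le ⟨w, rfl, rfl⟩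

theorem len_mul (g h : G) : M.len (g * h) ≤ M.len g + M.len h := by
  obtain ⟨v, hv, hv'⟩ := exists_geod M g
  obtain ⟨w, hw, hw'⟩ := exists_geod M h
  rw [← hv', ← hw', ← List.length_append, ← hv, ← hw, ← ev_append]
  exact len_le M _

theorem d_tri (x y z : G) : M.d x z ≤ M.d x y + M.d y z := by
  have := len_mul M (x⁻¹ * y) (y⁻¹ * z)
  have e : x⁻¹ * y * (y⁻¹ * z) = x⁻¹ * z := by group
  rw [e] at this
  exact this

theorem len_inv_le (g : G) : M.len g⁻¹ ≤ M.len g := by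
  obtain ⟨v, hv, hv'⟩ := exists_geod M g
  rw [← hv', ← hv, ← ev_invw, ← length_invw v]
  exact len_le M _

theorem len_inv (g : G) : M.len g⁻¹ = M.len g := by
  refine le_antisymm (len_inv_le M g) ?_
  have := len_inv_le M g⁻¹
  rwa [inv_inv] at this

theorem d_symm (x y : G) : M.d x y = M.d y x := by
  have : y⁻¹ * x = (x⁻¹ * y)⁻¹ := by group
  unfold Mark.d
  rw [this, len_inv]

theorem d_mul_left (a x y : G) : M.d (a * x) (a * y) = M.d x y := by
  unfold Mark.d
  congr 1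
  group

theorem d_self (x : G) : M.d x x = 0 := by
  have := len_le M []
  simpa [Mark.d, Mark.ev] using this

theorem exists_path (g h : G) : ∃ q : ℕ → G, q 0 = g ∧ q (M.d g h) = h ∧
    ∀ i j, i ≤ j → j ≤ M.d g h → M.d (q i) (q j) ≤ j - i := by
  obtain ⟨w, hw, hw'⟩ := exists_geod M (g⁻¹ * h)
  refine ⟨fun i => g * M.ev (w.take i), ?_, ?_, ?_⟩
  · simp [Mark.ev]
  · have : M.d g h = w.length := by rw [hw']; rfl
    simp only [this, List.take_length, hw]
    group
  · intro i j hij hj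
    rw [d_mul_left]
    have e : w.take j = w.take i ++ (w.drop i).take (j - i) := by
      rw [← List.take_add]
      congr 1
      omega
    unfold Mark.d
    rw [e, ev_append]
    have e2 : (M.ev (w.take i))⁻¹ * (M.ev (w.take i) * M.ev ((w.drop i).take (j - i))) =
        M.ev ((w.drop i).take (j - i)) := by group
    rw [e2]
    refine (len_le M _).trans ?_
    simp

end Basic

section Ulim

variable (ω : Ultrafilter ℕ)

theorem exists_ulim (u : ℕ → ℝ) (C : ℝ) (h : ∀ᶠ n in (ω : Filter ℕ), |u n| ≤ C) :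
    ∃ l, Tendsto u (ω : Filter ℕ) (𝓝 l) := by
  have hc : IsCompact (Set.Icc (-C) C) := isCompact_Icc
  obtain ⟨l, _, hl⟩ := hc.ultrafilter_le_nhds (ω.map u) (by
    rw [Ultrafilter.coe_map, le_principal_iff, mem_map]
    filter_upwards [h] with n hn
    exact ⟨by linarith [abs_le.1 hn |>.1], (abs_le.1 hn).2⟩)
  exact ⟨l, hl⟩

open Classical in
noncomputable def ulim (u : ℕ → ℝ) : ℝ :=
  if h : ∃ l, Tendsto u (ω : Filter ℕ) (𝓝 l) then h.choose else 0

theorem tendsto_ulim (u : ℕ → ℝ) (h : ∃ l, Tendsto u (ω : Filter ℕ) (𝓝 l)) :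
    Tendsto u (ω : Filter ℕ) (𝓝 (ulim ω u)) := by
  unfold ulim
  rw [dif_pos h]
  exact h.choose_spec

end Ulim

section Cone

variable {X : Type} [MetricSpace X] (ω : Ultrafilter ℕ) (s : ℕ → ℝ) (o : ℕ → X)

theorem cone_lim (hs : ∀ᶠ n in (ω : Filter ℕ), 0 < s n) (x y : Fin.ConeSeq X ω s o) :
    ∃ l, Tendsto (fun n => dist (x.1 n) (y.1 n) / s n) (ω : Filter ℕ) (𝓝 l) := by
  obtain ⟨C, hC⟩ := x.2
  obtain ⟨D, hD⟩ := y.2
  apply exists_ulim ω _ (C + D)
  filter_upwards [hC, hD, hs] with n h1 h2 h3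
  rw [abs_of_nonneg (div_nonneg dist_nonneg h3.le)]
  calc dist (x.1 n) (y.1 n) / s n ≤ (dist (x.1 n) (o n) + dist (y.1 n) (o n)) / s n := by
        apply div_le_div_of_nonneg_right _ h3.le
        exact dist_triangle_right _ _ _
    _ = dist (x.1 n) (o n) / s n + dist (y.1 n) (o n) / s n := add_div _ _ _
    _ ≤ C + D := add_le_add h1 h2

theorem exists_cone (hs : ∀ᶠ n in (ω : Filter ℕ), 0 < s n) :
    ∃ (C : Type) (_ : MetricSpace C) (π : Fin.ConeSeq X ω s o → C), Fin.IsCone X ω s o C π := by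
  let D : Fin.ConeSeq X ω s o → Fin.ConeSeq X ω s o → ℝ := fun x y =>
    ulim ω (fun n => dist (x.1 n) (y.1 n) / s n)
  have hD : ∀ x y, Tendsto (fun n => dist (x.1 n) (y.1 n) / s n) (ω : Filter ℕ) (𝓝 (D x y)) :=
    fun x y => tendsto_ulim ω _ (cone_lim ω s o hs x y)
  let _ : PseudoMetricSpace (Fin.ConeSeq X ω s o) :=
    { dist := D
      dist_self := by
        intro x
        have h := hD x x
        simp only [dist_self, zero_div] at h
        exact tendsto_nhds_unique h tendsto_const_nhds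
      dist_comm := by
        intro x y
        have h := hD x y
        simp only [dist_comm (x.1 _)] at h
        exact tendsto_nhds_unique h (hD y x)
      dist_triangle := by
        intro x y z
        refine le_of_tendsto_of_tendsto (hD x z) ((hD x y).add (hD y z)) ?_
        filter_upwards [hs] with n hn
        rw [← add_div]
        exact div_le_div_of_nonneg_right (dist_triangle _ _ _) hn.le }
  refine ⟨SeparationQuotient (Fin.ConeSeq X ω s o), inferInstance, SeparationQuotient.mk, ?_, ?_⟩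
  · exact SeparationQuotient.surjective_mk
  · intro x y
    rw [SeparationQuotient.dist_mk]
    exact hD x y

end Cone

section Main

variable {G : Type} [Group G] (M : Mark G) {X : Type} [MetricSpace X] (ι : G → X)
  (hiso : ∀ g h, dist (ι g) (ι h) = M.d g h) (hden : ∀ x, ∃ g, dist x (ι g) ≤ 1)
  (ω : Ultrafilter ℕ) (hω : (ω : Filter ℕ) ≤ cofinite) (s : ℕ → ℝ) (hs : Tendsto s atTop atTop)
  (o : ℕ → X) (o' : ℕ → G) (ho : ∀ n, dist (o n) (ι (o' n)) ≤ 1)
  {C : Type} [MetricSpace C] (π : Fin.ConeSeq X ω s o → C) (hπ : Fin.IsCone X ω s o C π)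

/-- admissible sequences of group elements -/
def Adm (g : ℕ → G) : Prop := ∃ K : ℝ, ∀ᶠ n in (ω : Filter ℕ), (M.d 1 (g n) : ℝ) ≤ K * s n

include hω hs in
theorem s_pos (B : ℝ) : ∀ᶠ n in (ω : Filter ℕ), B < s n := by
  have : (ω : Filter ℕ) ≤ atTop := by rw [← Nat.cofinite_eq_atTop]; exact hω
  exact (hs.eventually_gt_atTop B).filter_mono this

include hiso ho in
theorem dist_o (g : G) (n : ℕ) : dist (ι (o' n * g)) (o n) ≤ M.d 1 g + 1 := by
  have h1 : dist (ι (o' n * g)) (ι (o' n)) = M.d 1 g := by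
    rw [hiso, d_symm, ← d_mul_left M (o' n)⁻¹]
    congr 2 <;> group
  have h2 := dist_triangle (ι (o' n * g)) (ι (o' n)) (o n)
  have h3 := ho n
  rw [dist_comm] at h3
  linarith

include hiso hω hs ho in
theorem adm_mem (g : ℕ → G) (hg : Adm M ω s g) :
    ∃ K : ℝ, ∀ᶠ n in (ω : Filter ℕ), dist (ι (o' n * g n)) (o n) / s n ≤ K := by
  obtain ⟨K, hK⟩ := hg
  refine ⟨K + 1, ?_⟩
  filter_upwards [hK, s_pos ω hω s hs 1] with n h1 h2
  have h3 := dist_o M ι hiso o o' ho (g n) n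
  rw [div_le_iff₀ (by linarith)]
  nlinarith

/-- the point of the cone -/
noncomputable def pt (g : ℕ → G)
    (hg : ∃ K : ℝ, ∀ᶠ n in (ω : Filter ℕ), dist (ι (o' n * g n)) (o n) / s n ≤ K) : C :=
  π ⟨fun n => ι (o' n * g n), hg⟩

include hiso hπ in
theorem tendsto_pt (g h : ℕ → G)
    (hg : ∃ K : ℝ, ∀ᶠ n in (ω : Filter ℕ), dist (ι (o' n * g n)) (o n) / s n ≤ K)
    (hh : ∃ K : ℝ, ∀ᶠ n in (ω : Filter ℕ), dist (ι (o' n * h n)) (o n) / s n ≤ K) :
    Tendsto (fun n => (M.d (g n) (h n) : ℝ) / s n) (ω : Filter ℕ)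
      (𝓝 (dist (pt ι ω s o o' π g hg) (pt ι ω s o o' π h hh))) := by
  have := hπ.dist_eq ⟨fun n => ι (o' n * g n), hg⟩ ⟨fun n => ι (o' n * h n), hh⟩
  simp only [hiso, d_mul_left] at this
  exact this

include hden hω hs hπ in
omit hiso ho in
theorem exists_pt (z : C) : ∃ (g : ℕ → G)
    (hg : ∃ K : ℝ, ∀ᶠ n in (ω : Filter ℕ), dist (ι (o' n * g n)) (o n) / s n ≤ K),
    pt ι ω s o o' π g hg = z := by
  obtain ⟨x, rfl⟩ := hπ.surj z
  choose a ha using fun n => hden (x.1 n)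
  have e : ∀ n, o' n * ((o' n)⁻¹ * a n) = a n := fun n => by group
  have hg : ∃ K : ℝ, ∀ᶠ n in (ω : Filter ℕ),
      dist (ι (o' n * ((o' n)⁻¹ * a n))) (o n) / s n ≤ K := by
    obtain ⟨K, hK⟩ := x.2
    refine ⟨K + 1, ?_⟩
    filter_upwards [hK, s_pos ω hω s hs 1] with n h1 h2
    rw [e, div_le_iff₀ (by linarith)]
    rw [div_le_iff₀ (by linarith)] at h1
    have h3 := dist_triangle (ι (a n)) (x.1 n) (o n)
    have h4 := ha n
    rw [dist_comm] at h4
    nlinarith
  refine ⟨fun n => (o' n)⁻¹ * a n, hg, ?_⟩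
  apply dist_eq_zero.1
  have h1 := hπ.dist_eq ⟨fun n => ι (o' n * ((o' n)⁻¹ * a n)), hg⟩ x
  refine tendsto_nhds_unique h1 ?_
  have h2 : Tendsto (fun n => 1 / s n) (ω : Filter ℕ) (𝓝 0) := by
    have : Tendsto (fun n => 1 / s n) atTop (𝓝 0) := by
      simp only [one_div]
      exact hs.inv_tendsto_atTop
    exact this.mono_left (by rw [← Nat.cofinite_eq_atTop]; exact hω)
  refine tendsto_of_tendsto_of_tendsto_of_le_of_le' tendsto_const_nhds h2 ?_ ?_
  · filter_upwards [s_pos ω hω s hs 1] with n hn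
    exact div_nonneg dist_nonneg (by linarith)
  · filter_upwards [s_pos ω hω s hs 1] with n hn
    apply div_le_div_of_nonneg_right _ (by linarith)
    have h4 := ha n
    rw [dist_comm] at h4
    simpa [e] using h4

include hiso hω hs hπ in
theorem joined_pt (g h : ℕ → G)
    (hg : ∃ K : ℝ, ∀ᶠ n in (ω : Filter ℕ), dist (ι (o' n * g n)) (o n) / s n ≤ K)
    (hh : ∃ K : ℝ, ∀ᶠ n in (ω : Filter ℕ), dist (ι (o' n * h n)) (o n) / s n ≤ K) :
    Joined (pt ι ω s o o' π g hg) (pt ι ω s o o' π h hh) := by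
  choose q q0 q1 q2 using fun n => exists_path M (g n) (h n)
  let D : ℕ → ℕ := fun n => M.d (g n) (h n)
  let i : unitInterval → ℕ → ℕ := fun θ n => ⌊(θ : ℝ) * D n⌋₊
  have hi : ∀ θ n, i θ n ≤ D n := by
    intro θ n
    apply Nat.floor_le_of_le
    have := θ.2.2
    have h2 : (0 : ℝ) ≤ D n := Nat.cast_nonneg _
    nlinarith
  have hadm : ∀ θ : unitInterval, ∃ K : ℝ, ∀ᶠ n in (ω : Filter ℕ),
      dist (ι (o' n * q n (i θ n))) (o n) / s n ≤ K := by
    intro θ
    obtain ⟨K, hK⟩ := hg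
    obtain ⟨K', hK'⟩ := hh
    refine ⟨2 * K + K', ?_⟩
    filter_upwards [hK, hK', s_pos ω hω s hs 1] with n h1 h2 h3
    rw [div_le_iff₀ (by linarith)] at *
    have h4 : dist (ι (o' n * q n (i θ n))) (ι (o' n * g n)) ≤ D n := by
      rw [hiso, d_mul_left, d_symm]
      have := q2 n 0 (i θ n) (Nat.zero_le _) (hi θ n)
      rw [q0] at this
      exact_mod_cast this.trans (by have := hi θ n; omega)
    have h5 : (D n : ℝ) ≤ dist (ι (o' n * g n)) (o n) + dist (ι (o' n * h n)) (o n) := by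
      have : (D n : ℝ) = dist (ι (o' n * g n)) (ι (o' n * h n)) := by
        rw [hiso, d_mul_left]
      rw [this]
      exact dist_triangle_right _ _ _
    have h6 := dist_triangle (ι (o' n * q n (i θ n))) (ι (o' n * g n)) (o n)
    linarith
  let γ : unitInterval → C := fun θ => pt ι ω s o o' π (fun n => q n (i θ n)) (hadm θ)
  have hlip : ∀ θ θ' : unitInterval, dist (γ θ) (γ θ') ≤
      dist (pt ι ω s o o' π g hg) (pt ι ω s o o' π h hh) * dist θ θ' := by
    intro θ θ'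
    have e1 := tendsto_pt M ι hiso ω s o o' π hπ (fun n => q n (i θ n)) (fun n => q n (i θ' n))
      (hadm θ) (hadm θ')
    have e2 := tendsto_pt M ι hiso ω s o o' π hπ g h hg hh
    have e3 : Tendsto (fun n => 1 / s n) (ω : Filter ℕ) (𝓝 0) := by
      have : Tendsto (fun n => 1 / s n) atTop (𝓝 0) := by
        simp only [one_div]
        exact hs.inv_tendsto_atTop
      exact this.mono_left (by rw [← Nat.cofinite_eq_atTop]; exact hω)
    have e4 := (e2.mul_const (dist θ θ')).add e3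
    rw [add_zero] at e4
    refine le_of_tendsto_of_tendsto e1 e4 ?_
    filter_upwards [s_pos ω hω s hs 1] with n hn
    have hn0 : (0 : ℝ) < s n := by linarith
    rw [div_mul_eq_mul_div, ← add_div]
    apply div_le_div_of_nonneg_right _ hn0.le
    have hD0 : (0 : ℝ) ≤ D n := Nat.cast_nonneg _
    have key : ∀ a b : unitInterval, (a : ℝ) ≤ b →
        (M.d (q n (i a n)) (q n (i b n)) : ℝ) ≤ D n * ((b : ℝ) - a) + 1 := by
      intro a b hab
      have hle : i a n ≤ i b n := Nat.floor_le_floor (by nlinarith)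
      have h1 := q2 n (i a n) (i b n) hle (hi b n)
      have h2 : (M.d (q n (i a n)) (q n (i b n)) : ℝ) ≤ (i b n : ℝ) - i a n := by
        have : (M.d (q n (i a n)) (q n (i b n)) : ℝ) ≤ ((i b n - i a n : ℕ) : ℝ) := by
          exact_mod_cast h1
        rwa [Nat.cast_sub hle] at this
      have h3 : (i b n : ℝ) ≤ b * D n := Nat.floor_le (mul_nonneg b.2.1 hD0)
      have h4 : (a : ℝ) * D n < i a n + 1 := Nat.lt_floor_add_one _
      linarith
    rw [Subtype.dist_eq, Real.dist_eq]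
    rcases le_total (θ : ℝ) θ' with hc | hc
    · have := key θ θ' hc
      rw [abs_sub_comm, abs_of_nonneg (by linarith)]
      exact this
    · have := key θ' θ hc
      rw [abs_of_nonneg (by linarith), d_symm]
      exact this
  have hcont : Continuous γ := by
    have hL : 0 ≤ dist (pt ι ω s o o' π g hg) (pt ι ω s o o' π h hh) := dist_nonneg
    exact (LipschitzWith.of_dist_le_mul (K := ⟨_, hL⟩) (fun a b => hlip a b)).continuous
  refine ⟨⟨⟨γ, hcont⟩, ?_, ?_⟩⟩
  · change pt ι ω s o o' π (fun n => q n (i 0 n)) (hadm 0) = _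
    have : (fun n => q n (i 0 n)) = g := by
      funext n
      have : i 0 n = 0 := by simp [i]
      rw [this, q0]
    congr 1
  · change pt ι ω s o o' π (fun n => q n (i 1 n)) (hadm 1) = _
    have : (fun n => q n (i 1 n)) = h := by
      funext n
      have : i 1 n = M.d (g n) (h n) := by simp [i, D]
      rw [this, q1]
    congr 1

include hiso hden hω hs hπ in
theorem connected_cone : ConnectedSpace C := by
  let o' : ℕ → G := fun _ => 1
  have : PathConnectedSpace C := by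
    refine ⟨?_, ?_⟩
    · exact ⟨π ⟨o, 0, by simp⟩⟩
    · intro z z'
      obtain ⟨g, hg, rfl⟩ := exists_pt ι hden ω hω s hs o o' π hπ z
      obtain ⟨h, hh, rfl⟩ := exists_pt ι hden ω hω s hs o o' π hπ z'
      exact joined_pt M ι hiso ω hω s hs o o' π hπ g h hg hh
  infer_instance

/-- `g n` is reached from `x n` by a path of linear length outside a ball of linear radius -/
def Reach (x : ℕ → G) (K : ℕ) (g : ℕ → G) : Prop :=
  ∀ᶠ n in (ω : Filter ℕ), ∃ (N : ℕ) (f : ℕ → G), N ≤ K * ⌊s n⌋₊ ∧ IsPath M.d f N ∧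
    f 0 = x n ∧ f N = g n ∧ ∀ i ≤ N, ⌊s n⌋₊ < K * M.d 1 (f i)

include hiso hω hs hπ in
theorem reach_ext (x : ℕ → G) (K : ℕ) (g h : ℕ → G) (hr : Reach M ω s x K g)
    (hg : ∃ K : ℝ, ∀ᶠ n in (ω : Filter ℕ), dist (ι (o' n * g n)) (o n) / s n ≤ K)
    (hh : ∃ K : ℝ, ∀ᶠ n in (ω : Filter ℕ), dist (ι (o' n * h n)) (o n) / s n ≤ K)
    (h1 : ∃ K : ℝ, ∀ᶠ n in (ω : Filter ℕ), dist (ι (o' n * 1)) (o n) / s n ≤ K)
    (hd : dist (pt ι ω s o o' π g hg) (pt ι ω s o o' π h hh) <
      dist (pt ι ω s o o' π (fun _ => 1) h1) (pt ι ω s o o' π h hh) / 2) :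
    ∃ K', Reach M ω s x K' h := by
  set r := dist (pt ι ω s o o' π (fun _ => 1) h1) (pt ι ω s o o' π h hh) with hrdef
  have hr0 : 0 < r := by
    have := dist_nonneg (x := pt ι ω s o o' π g hg) (y := pt ι ω s o o' π h hh)
    linarith
  have e1 := tendsto_pt M ι hiso ω s o o' π hπ g h hg hh
  have e2 := tendsto_pt M ι hiso ω s o o' π hπ (fun _ => 1) h h1 hh
  refine ⟨K + ⌈r⌉₊ + ⌈4 / r⌉₊ + 1, ?_⟩
  filter_upwards [hr, s_pos ω hω s hs 2, e1.eventually_lt_const hd,
    e2.eventually_const_lt (show 3 * r / 4 < r by linarith)] with n hn hs2 h3 h4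
  obtain ⟨N, f, hN, hf, hf0, hfN, hfar⟩ := hn
  obtain ⟨q, q0, q1, q2⟩ := exists_path M (g n) (h n)
  have hsn : (0 : ℝ) < s n := by linarith
  rw [div_lt_iff₀ hsn] at h3
  rw [lt_div_iff₀ hsn] at h4
  have hm1 : (⌊s n⌋₊ : ℝ) ≤ s n := Nat.floor_le hsn.le
  have hm2 : s n < ⌊s n⌋₊ + 1 := Nat.lt_floor_add_one _
  have hr1 : r ≤ ⌈r⌉₊ := Nat.le_ceil _
  have hr2 : 4 / r ≤ ⌈4 / r⌉₊ := Nat.le_ceil _
  have hr3 : 4 ≤ (⌈4 / r⌉₊ : ℝ) * r := by
    rw [div_le_iff₀ hr0] at hr2
    exact hr2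
  refine ⟨N + M.d (g n) (h n), fun i => if i ≤ N then f i else q (i - N), ?_, ?_, ?_, ?_, ?_⟩
  · have : (M.d (g n) (h n) : ℝ) ≤ ⌈r⌉₊ * ⌊s n⌋₊ := by
      have : (M.d (g n) (h n) : ℝ) ≤ r * ⌊s n⌋₊ := by nlinarith
      nlinarith [Nat.cast_nonneg (α := ℝ) ⌊s n⌋₊]
    have h5 : M.d (g n) (h n) ≤ ⌈r⌉₊ * ⌊s n⌋₊ := by exact_mod_cast this
    nlinarith [Nat.zero_le (⌈4 / r⌉₊ * ⌊s n⌋₊), Nat.zero_le ⌊s n⌋₊]
  · intro i hi
    rcases lt_trichotomy i N with hc | hc | hc
    · have h6 : i + 1 ≤ N := hc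
      simp only [hc.le, if_true, h6]
      exact hf i hc
    · subst hc
      have h6 : ¬ (i + 1 ≤ i) := by omega
      simp only [le_refl, if_true, h6, if_false]
      rw [hfN, ← q0]
      have := q2 0 1 (by omega) (by omega)
      simpa using this
    · have h6 : ¬ (i ≤ N) := by omega
      have h7 : ¬ (i + 1 ≤ N) := by omega
      simp only [h6, h7, if_false]
      have := q2 (i - N) (i + 1 - N) (by omega) (by omega)
      omega
  · simpa using hf0
  · by_cases hc : M.d (g n) (h n) = 0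
    · have : g n = h n := by
        rw [← q0, ← q1, hc]
      have h8 : N + M.d (g n) (h n) = N := by omega
      simp only [h8, le_refl, if_true]
      rw [hfN, this]
    · have h6 : ¬ (N + M.d (g n) (h n) ≤ N) := by omega
      simp only [h6, if_false]
      rw [Nat.add_sub_cancel_left, q1]
  · intro i hi
    by_cases hc : i ≤ N
    · simp only [hc, if_true]
      have := hfar i hc
      nlinarith [Nat.zero_le (⌈r⌉₊ * M.d 1 (f i)), Nat.zero_le (⌈4 / r⌉₊ * M.d 1 (f i)),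
        Nat.zero_le (M.d 1 (f i))]
    · simp only [hc, if_false]
      have h5 := q2 (i - N) (M.d (g n) (h n)) (by omega) le_rfl
      rw [q1] at h5
      have h6 := d_tri M 1 (q (i - N)) (h n)
      have h7 : (M.d 1 (h n) : ℝ) ≤ M.d 1 (q (i - N)) + M.d (g n) (h n) := by
        have : M.d 1 (h n) ≤ M.d 1 (q (i - N)) + M.d (g n) (h n) := by omega
        exact_mod_cast this
      have h8 : r / 4 * s n < M.d 1 (q (i - N)) := by linarith
      have h9 : (⌊s n⌋₊ : ℝ) < ((K + ⌈r⌉₊ + ⌈4 / r⌉₊ + 1 : ℕ) : ℝ) * M.d 1 (q (i - N)) := by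
        push_cast
        have hK0 : (0 : ℝ) ≤ K := Nat.cast_nonneg _
        have hr0' : (0 : ℝ) ≤ ⌈r⌉₊ := Nat.cast_nonneg _
        have h10 : (0 : ℝ) < M.d 1 (q (i - N)) := lt_trans (by positivity) h8
        have h11 : s n ≤ (⌈4 / r⌉₊ : ℝ) * M.d 1 (q (i - N)) := by
          have : (⌈4 / r⌉₊ : ℝ) * (r / 4 * s n) ≤ (⌈4 / r⌉₊ : ℝ) * M.d 1 (q (i - N)) :=
            mul_le_mul_of_nonneg_left h8.le (Nat.cast_nonneg _)
          nlinarith
        nlinarith [mul_nonneg hK0 h10.le, mul_nonneg hr0' h10.le]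
      exact_mod_cast h9

include hiso hden hω hs ho hπ in
theorem cut_cone (hM : CutProp M) : Fin.HasCutPoint C := by
  have hat : (ω : Filter ℕ) ≤ atTop := by rw [← Nat.cofinite_eq_atTop]; exact hω
  -- choice of the points
  choose s₀ hs₀ using hM
  let m : ℕ → ℕ := fun n => ⌊s n⌋₊
  have hm : Tendsto m atTop atTop := tendsto_nat_floor_atTop.comp hs
  let κ : ℕ → ℕ := fun n => Nat.findGreatest (fun K => s₀ K ≤ m n) n
  have hsel : ∀ n, ∃ x y : G, s₀ (κ n) ≤ m n → M.d 1 x = m n ∧ M.d 1 y = m n ∧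
      ∀ (N : ℕ) (f : ℕ → G), N ≤ κ n * m n → IsPath M.d f N → f 0 = x → f N = y →
        ∃ i ≤ N, κ n * M.d 1 (f i) ≤ m n := by
    intro n
    by_cases h : s₀ (κ n) ≤ m n
    · obtain ⟨x, y, hxy⟩ := hs₀ (κ n) (m n) h
      exact ⟨x, y, fun _ => hxy⟩
    · exact ⟨1, 1, fun h' => absurd h' h⟩
  choose x y hxy using hsel
  have hκ : ∀ K₀ : ℕ, ∀ᶠ n in (ω : Filter ℕ), K₀ ≤ κ n ∧ s₀ (κ n) ≤ m n := by
    intro K₀
    apply Eventually.filter_mono hat
    filter_upwards [eventually_ge_atTop K₀, hm.eventually_ge_atTop (s₀ K₀)] with n h1 h2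
    exact ⟨Nat.le_findGreatest h1 h2, Nat.findGreatest_spec (P := fun K => s₀ K ≤ m n) h1 h2⟩
  have hxm : ∀ᶠ n in (ω : Filter ℕ), M.d 1 (x n) = m n := by
    filter_upwards [hκ 0] with n hn
    exact (hxy n hn.2).1
  have hym : ∀ᶠ n in (ω : Filter ℕ), M.d 1 (y n) = m n := by
    filter_upwards [hκ 0] with n hn
    exact (hxy n hn.2).2.1
  have hmle : ∀ᶠ n in (ω : Filter ℕ), (m n : ℝ) ≤ s n := by
    filter_upwards [s_pos ω hω s hs 0] with n hn
    exact Nat.floor_le hn.le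
  have hxa := adm_mem M ι hiso ω hω s hs o o' ho x ⟨1, by
    filter_upwards [hxm, hmle] with n h1 h2
    rw [h1, one_mul]; exact h2⟩
  have hya := adm_mem M ι hiso ω hω s hs o o' ho y ⟨1, by
    filter_upwards [hym, hmle] with n h1 h2
    rw [h1, one_mul]; exact h2⟩
  have h1a := adm_mem M ι hiso ω hω s hs o o' ho (fun _ => 1) ⟨1, by
    filter_upwards [s_pos ω hω s hs 0] with n hn
    rw [d_self]; simp; exact hn.le⟩
  set p : C := pt ι ω s o o' π (fun _ => 1) h1a with hp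
  -- distances from `p`
  have hms : Tendsto (fun n => (m n : ℝ) / s n) (ω : Filter ℕ) (𝓝 1) :=
    ((tendsto_nat_floor_div_atTop (R := ℝ)).comp hs).mono_left hat
  have hpx : dist p (pt ι ω s o o' π x hxa) = 1 := by
    refine tendsto_nhds_unique (tendsto_pt M ι hiso ω s o o' π hπ (fun _ => 1) x h1a hxa)
      (hms.congr' ?_)
    filter_upwards [hxm] with n hn
    rw [hn]
  have hpy : dist p (pt ι ω s o o' π y hya) = 1 := by
    refine tendsto_nhds_unique (tendsto_pt M ι hiso ω s o o' π hπ (fun _ => 1) y h1a hya)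
      (hms.congr' ?_)
    filter_upwards [hym] with n hn
    rw [hn]
  -- the open set
  let U : Set C := {z | ∃ (g : ℕ → G) (hg : ∃ K : ℝ, ∀ᶠ n in (ω : Filter ℕ),
    dist (ι (o' n * g n)) (o n) / s n ≤ K) (K : ℕ), pt ι ω s o o' π g hg = z ∧ Reach M ω s x K g}
  have key : ∀ z z' : C, z ∈ U → dist z z' < dist p z' / 2 → ∀ (h : ℕ → G)
      (hh : ∃ K : ℝ, ∀ᶠ n in (ω : Filter ℕ), dist (ι (o' n * h n)) (o n) / s n ≤ K),
      pt ι ω s o o' π h hh = z' → ∃ K, Reach M ω s x K h := by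
    rintro z z' ⟨g, hg, K, rfl, hr⟩ hd h hh rfl
    exact reach_ext M ι hiso ω hω s hs o o' π hπ x K g h hr hg hh h1a hd
  have key' : ∀ z z' : C, z ∈ U → dist z z' < dist p z' / 2 → z' ∈ U := by
    intro z z' hz hd
    obtain ⟨h, hh, rfl⟩ := exists_pt ι hden ω hω s hs o o' π hπ z'
    obtain ⟨K, hK⟩ := key z _ hz hd h hh rfl
    exact ⟨h, hh, K, rfl, hK⟩
  have hUp : p ∉ U := by
    rintro ⟨g, hg, K, hgp, hr⟩
    have e1 := tendsto_pt M ι hiso ω s o o' π hπ (fun _ => 1) g h1a hg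
    rw [hgp, ← hp, dist_self] at e1
    have e2 := e1.const_mul (K : ℝ)
    rw [mul_zero] at e2
    have e3 := hms.eventually_const_lt (show (1 / 2 : ℝ) < 1 by norm_num)
    have e4 := e2.eventually_lt_const (show (0 : ℝ) < 1 / 2 by norm_num)
    obtain ⟨n, ⟨N, f, _, _, _, hfN, hfar⟩, h2, h3, h4⟩ :=
      (hr.and (e3.and (e4.and (s_pos ω hω s hs 0)))).exists
    have h5 := hfar N le_rfl
    rw [hfN] at h5
    have h6 : (m n : ℝ) < K * M.d 1 (g n) := by exact_mod_cast h5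
    have h7 : (m n : ℝ) / s n < K * (M.d 1 (g n) / s n) := by
      rw [← mul_div_assoc]
      exact div_lt_div_of_pos_right h6 h4
    linarith
  have hxU : pt ι ω s o o' π x hxa ∈ U := by
    refine ⟨x, hxa, 2, rfl, ?_⟩
    filter_upwards [hxm, s_pos ω hω s hs 1] with n h1 h2
    refine ⟨0, fun _ => x n, Nat.zero_le _, fun i hi => absurd hi (Nat.not_lt_zero _), rfl, rfl, ?_⟩
    intro i _
    rw [h1]
    have : 1 ≤ m n := Nat.le_floor (by simpa using h2.le)
    change m n < 2 * m n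
    omega
  have hyU : pt ι ω s o o' π y hya ∉ U := by
    intro hy
    obtain ⟨K, hK⟩ := key _ _ hy (by rw [dist_self, hpy]; norm_num) y hya rfl
    obtain ⟨n, ⟨N, f, hN, hf, hf0, hfN, hfar⟩, h2, h3⟩ := (hK.and (hκ K)).exists
    obtain ⟨i, hi, hi'⟩ := (hxy n h3).2.2 N f
      (hN.trans (Nat.mul_le_mul_right _ h2)) hf hf0 hfN
    have h4 := hfar i hi
    have h5 : K * M.d 1 (f i) ≤ κ n * M.d 1 (f i) := Nat.mul_le_mul_right _ h2
    change m n < _ at h4
    omega
  refine ⟨p, fun hpre => ?_⟩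
  have hUo : IsOpen U := by
    rw [Metric.isOpen_iff]
    intro z hz
    have hzp : z ≠ p := fun h => hUp (h ▸ hz)
    have hpos : 0 < dist p z := dist_pos.2 hzp.symm
    refine ⟨dist p z / 4, by linarith, ?_⟩
    intro w hw
    rw [Metric.mem_ball] at hw
    refine key' z w hz ?_
    have := dist_triangle p w z
    rw [dist_comm]
    linarith
  have hVo : IsOpen ({p}ᶜ ∩ Uᶜ : Set C) := by
    rw [Metric.isOpen_iff]
    rintro z ⟨hz1, hz2⟩
    have hpos : 0 < dist p z := dist_pos.2 (fun h => hz1 h.symm)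
    refine ⟨dist p z / 3, by linarith, ?_⟩
    intro w hw
    rw [Metric.mem_ball] at hw
    refine ⟨fun h => ?_, fun h => hz2 (key' w z h (by linarith))⟩
    rw [Set.mem_singleton_iff] at h
    rw [h] at hw
    linarith
  obtain ⟨w, _, hw1, hw2⟩ := hpre U ({p}ᶜ ∩ Uᶜ) hUo hVo
    (fun z hz => by
      by_cases h : z ∈ U
      · exact Or.inl h
      · exact Or.inr ⟨hz, h⟩)
    ⟨_, fun h => by
      rw [Set.mem_singleton_iff] at h
      rw [h, dist_self] at hpx
      norm_num at hpx, hxU⟩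
    ⟨_, fun h => by
      rw [Set.mem_singleton_iff] at h
      rw [h, dist_self] at hpy
      norm_num at hpy, ⟨fun h => by
      rw [Set.mem_singleton_iff] at h
      rw [h, dist_self] at hpy
      norm_num at hpy, hyU⟩⟩
  exact hw2.2 hw1

end Main

/-- MODULE M10b -/
theorem allConesCut {G : Type} [Group G] (M : Mark G) (hM : CutProp M) (X : Type) [MetricSpace X]
    (ι : G → X) (hiso : ∀ g h, dist (ι g) (ι h) = M.d g h)
    (hden : ∀ x, ∃ g, dist x (ι g) ≤ 1) : Fin.AllConesCut X := by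
  intro ω hω s hs o
  refine ⟨exists_cone ω s o (s_pos ω hω s hs 0), ?_⟩
  intro C _ π hπ
  choose o' ho using fun n => hden (o n)
  exact ⟨connected_cone M ι hiso hden ω hω s hs o π hπ,
    cut_cone M ι hiso hden ω hω s hs o o' ho π hπ hM⟩

end Pool.Agent.Helper57.ML
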