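import Pool.Agent.Helper57.ML.Cones
import Pool.Agent.Helper44.ML.MorseLim

/-!
# The final glue for MP_021201_al: the combinatorial theorem implies the final statement
-/

namespace Pool.Agent.Helper57.ML

open Pool.Agent.Helper93.ML

open Classical in
/-- the finite generating set of a marked group -/
noncomputable def genSet {G : Type} [Group G] (M : Mark G) : Finset G :=
  Finset.univ.image (fun i : Fin 4 => M.s (i, true))

theorem mem_genSet {G : Type} [Group G] (M : Mark G) (x : G) :
    x ∈ genSet M ↔ ∃ i : Fin 4, M.s (i, true) = x := by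
  simp [genSet]

theorem s_false {G : Type} [Group G] (M : Mark G) (i : Fin 4) :
    M.s (i, false) = (M.s (i, true))⁻¹ := by
  have := M.s_inv (i, true)
  simpa [inv1] using this

theorem closure_genSet {G : Type} [Group G] (M : Mark G) :
    Subgroup.closure (genSet M : Set G) = ⊤ := by
  rw [eq_top_iff, ← M.gen, Subgroup.closure_le]
  rintro _ ⟨⟨i, b⟩, rfl⟩
  have h : M.s (i, true) ∈ Subgroup.closure (genSet M : Set G) := by
    apply Subgroup.subset_closure
    rw [Finset.mem_coe, mem_genSet]
    exact ⟨i, rfl⟩
  cases b with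
  | true => exact h
  | false => rw [SetLike.mem_coe, s_false]; exact inv_mem h

theorem wordLen_genSet {G : Type} [Group G] (M : Mark G) (g : G) :
    Fin.wordLen (genSet M : Set G) g = M.len g := by
  unfold Fin.wordLen Mark.len
  congr 1
  ext n
  constructor
  · rintro ⟨l, hl, rfl, rfl⟩
    induction l with
    | nil => exact ⟨[], by simp [Mark.ev], rfl⟩
    | cons x l ih =>
      obtain ⟨w, hw, hw'⟩ := ih (fun y hy => hl y (List.mem_cons_of_mem _ hy))
      obtain ⟨y, hy⟩ : ∃ y : Ltr, M.s y = x := by
        rcases hl x List.mem_cons_self with h | h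
        · rw [Finset.mem_coe, mem_genSet] at h
          obtain ⟨i, hi⟩ := h
          exact ⟨(i, true), hi⟩
        · rw [Finset.mem_coe, mem_genSet] at h
          obtain ⟨i, hi⟩ := h
          exact ⟨(i, false), by rw [s_false, hi, inv_inv]⟩
      refine ⟨y :: w, ?_, by simp [hw']⟩
      rw [List.prod_cons, ← hw, ← hy]
      simp [Mark.ev]
  · rintro ⟨w, rfl, rfl⟩
    refine ⟨w.map M.s, ?_, rfl, by simp⟩
    intro x hx
    obtain ⟨⟨i, b⟩, _, rfl⟩ := List.mem_map.1 hx
    cases b with
    | true => left; rw [Finset.mem_coe, mem_genSet]; exact ⟨i, rfl⟩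
    | false => right; rw [s_false, inv_inv, Finset.mem_coe, mem_genSet]; exact ⟨i, rfl⟩

theorem d_eq_zero {G : Type} [Group G] (M : Mark G) {g h : G} (hd : M.d g h = 0) : g = h := by
  obtain ⟨w, hw, hw'⟩ := exists_geod M (g⁻¹ * h)
  have : w.length = 0 := by rw [hw']; exact hd
  have : w = [] := List.length_eq_zero_iff.1 this
  subst this
  have h1 : g⁻¹ * h = 1 := by rw [← hw]; simp [Mark.ev]
  have h2 := mul_eq_one_iff_eq_inv.1 h1
  exact (inv_injective (by rw [h2]))

/-- MODULE M10 -/
theorem finalCone : Fin.StmtFinalCone := by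
  rintro ⟨G, hG, M, hcut, hml⟩
  refine ⟨G, hG, genSet M, closure_genSet M, ?_, ?_⟩
  · let m : MetricSpace G :=
      { dist := fun g h => (M.d g h : ℝ)
        dist_self := fun g => by simp [d_self]
        dist_comm := fun g h => by simp [d_symm M g h]
        dist_triangle := fun g h k => by exact_mod_cast d_tri M g h k
        eq_of_dist_eq_zero := fun {g h} hd => d_eq_zero M (by exact_mod_cast hd) }
    refine ⟨G, m, id, ?_, ?_⟩
    · intro g h
      rw [wordLen_genSet]
      rfl
    · intro g
      refine ⟨g, ?_⟩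
      change ((M.d g g : ℕ) : ℝ) ≤ 1
      rw [d_self]
      simp
  · intro X _ ι hX
    have hiso : ∀ g h, dist (ι g) (ι h) = M.d g h := by
      intro g h
      rw [hX.isom, wordLen_genSet]
      rfl
    exact ⟨Pool.Agent.Helper44.ML.morseLimited M hml ι hiso hX.dense,
      allConesCut M hcut X ι hiso hX.dense⟩

end Pool.Agent.Helper57.ML
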